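import Mathlib

set_option autoImplicit false

namespace Pool.Agent.H.AA5

open Finset

def Ch {V : Type} (G : SimpleGraph V) (F : V → ℕ) (m : ℕ) : Prop :=
  ∀ L : V → Finset ℕ, (∀ v, (L v).card = F v) →
    ∃ f : V → Finset ℕ, (∀ v, f v ⊆ L v ∧ (f v).card = m) ∧
      ∀ u v, G.Adj u v → Disjoint (f u) (f v)

def Ch1 {V : Type} (G : SimpleGraph V) (F : V → ℕ) : Prop :=
  ∀ L : V → Finset ℕ, (∀ v, (L v).card = F v) →
    ∃ c : V → ℕ, (∀ v, c v ∈ L v) ∧ ∀ u v, G.Adj u v → c u ≠ c v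

def ext {V : Type} (C : Type) (G : SimpleGraph V) (X : V → Prop) : SimpleGraph (Option (C × V)) where
  Adj a b := match a, b with
    | none, none => False
    | none, some p => X p.2
    | some p, none => X p.2
    | some p, some q => p.1 = q.1 ∧ G.Adj p.2 q.2
  symm := ⟨by
    rintro (_ | p) (_ | q) h
    · exact h
    · exact h
    · exact h
    · exact ⟨h.1.symm, h.2.symm⟩⟩
  loopless := ⟨by
    rintro (_ | p) h
    · exact h
    · exact G.irrefl h.2⟩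

theorem step (V : Type) [Fintype V] (G : SimpleGraph V) (f : V → ℕ) (k j m : ℕ) (hk : 1 ≤ k)
    (h1 : Ch1 G f) (h2 : ¬ Ch G (fun v => f v * m + 1) m)
    (h3 : ∀ v, k ≤ f v + (j + 1) ∧ f v ≤ k) :
    ∃ (V' : Type) (_ : Fintype V') (G' : SimpleGraph V') (f' : V' → ℕ),
      Ch1 G' f' ∧ ¬ Ch G' (fun v => f' v * m + 1) m ∧ ∀ v, k ≤ f' v + j ∧ f' v ≤ k := by
  classical
  let C : Type := ↥(powersetCard m (range (k * m + 1)))
  let f' : Option (C × V) → ℕ := fun a => match a with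
    | none => k
    | some p => if f p.2 < k then f p.2 + 1 else f p.2
  refine ⟨Option (C × V), inferInstance, ext C G (fun v => f v < k), f', ?_, ?_, ?_⟩
  · intro L hL
    obtain ⟨x, hx⟩ : (L none).Nonempty := card_pos.1 (by rw [hL]; exact hk)
    have : ∀ S : C, ∃ c : V → ℕ, (∀ v, c v ∈ L (some (S, v)) ∧ (f v < k → c v ≠ x)) ∧
        ∀ u v, G.Adj u v → c u ≠ c v := by
      intro S
      have ex : ∀ v, ∃ T : Finset ℕ, T.card = f v ∧ T ⊆ L (some (S, v)) ∧ (f v < k → x ∉ T) := by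
        intro v
        have := hL (some (S, v))
        simp only [f'] at this
        by_cases h : f v < k
        · rw [if_pos h] at this
          obtain ⟨T, hT, hc⟩ := exists_subset_card_eq (s := (L (some (S, v))).erase x) (n := f v)
            (by have := pred_card_le_card_erase (s := L (some (S, v))) (a := x); omega)
          exact ⟨T, hc, hT.trans (erase_subset _ _), fun _ hx => by simpa using hT hx⟩
        · rw [if_neg h] at this
          exact ⟨_, this, Subset.refl _, fun h' => absurd h' h⟩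
      choose T t1 t2 t3 using ex
      obtain ⟨c, c1, c2⟩ := h1 T t1
      exact ⟨c, fun v => ⟨t2 v (c1 v), fun h e => t3 v h (e ▸ c1 v)⟩, c2⟩
    choose c c1 c2 using this
    refine ⟨fun a => match a with | none => x | some p => c p.1 p.2, ?_, ?_⟩
    · rintro (_ | p)
      · exact hx
      · exact (c1 p.1 p.2).1
    · rintro (_ | p) (_ | q) h
      · exact h.elim
      · exact ((c1 q.1 q.2).2 h).symm
      · exact (c1 p.1 p.2).2 h
      · obtain ⟨e, h⟩ := h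
        show c p.1 p.2 ≠ c q.1 q.2
        rw [e]; exact c2 _ _ _ h
  · intro h
    apply h2
    intro L hL
    let sh : ℕ ↪ ℕ := addRightEmbedding (k * m + 1)
    have dj : ∀ (v : V) (S : C), Disjoint ((L v).map sh) S.1 := by
      intro v S
      rw [disjoint_left]
      intro a ha hb
      obtain ⟨b, -, rfl⟩ := mem_map.1 ha
      have := mem_range.1 ((mem_powersetCard.1 S.2).1 hb)
      simp [sh] at this
      omega
    obtain ⟨φ, p1, p2⟩ := h (fun a => match a with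
      | none => range (k * m + 1)
      | some p => if f p.2 < k then (L p.2).map sh ∪ p.1.1 else (L p.2).map sh) (by
        rintro (_ | p)
        · simp [f']
        · simp only [f']
          split_ifs
          · rw [card_union_of_disjoint (dj _ _), card_map, hL, (mem_powersetCard.1 p.1.2).2]; ring
          · rw [card_map, hL])
    let S : C := ⟨φ none, mem_powersetCard.2 (p1 none)⟩
    have sub : ∀ v, φ (some (S, v)) ⊆ (L v).map sh := by
      intro v a ha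
      have := (p1 (some (S, v))).1 ha
      simp only at this
      split_ifs at this with hv
      · rcases mem_union.1 this with h' | h'
        · exact h'
        · exact absurd ha (disjoint_left.1 (p2 none (some (S, v)) hv) h')
      · exact this
    have ex : ∀ v, ∃ T ⊆ L v, φ (some (S, v)) = T.map sh := fun v => subset_map_iff.1 (sub v)
    choose T t1 t2 using ex
    refine ⟨T, fun v => ⟨t1 v, ?_⟩, fun u v huv => ?_⟩
    · rw [← (p1 (some (S, v))).2, t2, card_map]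
    · have := p2 (some (S, u)) (some (S, v)) ⟨rfl, huv⟩
      rwa [t2, t2, disjoint_map] at this
  · rintro (_ | p)
    · simp [f']
    · have := h3 p.2
      simp only [f']
      split_ifs <;> omega

def wheel : SimpleGraph (Fin 6) := SimpleGraph.fromRel (fun u v =>
  u = 0 ∨ (u = 1 ∧ v = 2) ∨ (u = 2 ∧ v = 3) ∨ (u = 3 ∧ v = 4) ∨ (u = 4 ∧ v = 5) ∨ (u = 5 ∧ v = 1))

def fw : Fin 6 → ℕ := ![5, 3, 2, 2, 2, 2]

theorem wheel_bad : ¬ Ch wheel (fun v => fw v * 7 + 1) 7 := by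
  intro h
  obtain ⟨φ, p1, p2⟩ := h ![range 36, range 11 ∪ Ico 30 41, range 15, Ico 11 26, Ico 15 30, Ico 26 41]
    (by intro v; fin_cases v <;> decide)
  have hd : ∀ u v, u ≠ v → Disjoint (φ u) (φ v) := by
    intro u v huv
    by_cases ha : wheel.Adj u v
    · exact p2 u v ha
    · refine Disjoint.mono (p1 u).1 (p1 v).1 ?_
      revert ha huv
      simp only [wheel, SimpleGraph.fromRel_adj]
      fin_cases u <;> fin_cases v <;> decide
  have h1 : (univ.biUnion φ).card = ∑ v, (φ v).card :=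
    card_biUnion (fun u _ v _ h => hd u v h)
  have h2 : univ.biUnion φ ⊆ range 41 := by
    rw [biUnion_subset]
    intro v _
    refine (p1 v).1.trans ?_
    fin_cases v <;> decide
  have h3 := card_le_card h2
  simp only [h1, (p1 _).2] at h3
  simp at h3

theorem avoid (L : Finset ℕ) (T : Finset ℕ) (h : T.card < L.card) : ∃ x ∈ L, x ∉ T := by
  by_contra hc
  push Not at hc
  exact absurd (card_le_card hc) (by omega)

theorem five (a b c d e : ℕ) (h : ({a, b, c, d, e} : Finset ℕ).card = 5) :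
    a ≠ c ∧ a ≠ d ∧ b ≠ d ∧ b ≠ e ∧ c ≠ e := by
  refine ⟨?_, ?_, ?_, ?_, ?_⟩ <;> rintro rfl
  · have : ({a, b, a, d, e} : Finset ℕ) = {a, b, d, e} := by ext; simp; tauto
    rw [this] at h; have := card_le_four (a := a) (b := b) (c := d) (d := e); omega
  · have : ({a, b, c, a, e} : Finset ℕ) = {a, b, c, e} := by ext; simp; tauto
    rw [this] at h; have := card_le_four (a := a) (b := b) (c := c) (d := e); omega
  · have : ({a, b, c, b, e} : Finset ℕ) = {a, b, c, e} := by ext; simp; tauto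
    rw [this] at h; have := card_le_four (a := a) (b := b) (c := c) (d := e); omega
  · have : ({a, b, c, d, b} : Finset ℕ) = {a, b, c, d} := by ext; simp; tauto
    rw [this] at h; have := card_le_four (a := a) (b := b) (c := c) (d := d); omega
  · have : ({a, b, c, d, c} : Finset ℕ) = {a, b, c, d} := by ext; simp; tauto
    rw [this] at h; have := card_le_four (a := a) (b := b) (c := c) (d := d); omega

theorem wheel_fin (L : Fin 6 → Finset ℕ) (x x1 x2 x3 x4 x5 : ℕ) (h0 : x ∈ L 0) (h1 : x1 ∈ L 1)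
    (h2 : x2 ∈ L 2) (h3 : x3 ∈ L 3) (h4 : x4 ∈ L 4) (h5 : x5 ∈ L 5)
    (a1 : x1 ≠ x2) (a2 : x2 ≠ x3) (a3 : x3 ≠ x4) (a4 : x4 ≠ x5) (a5 : x5 ≠ x1)
    (hx : x ∉ ({x1, x2, x3, x4, x5} : Finset ℕ)) :
      ∃ c : Fin 6 → ℕ, (∀ v, c v ∈ L v) ∧ ∀ u v, wheel.Adj u v → c u ≠ c v := by
  simp only [mem_insert, mem_singleton, not_or] at hx
  refine ⟨![x, x1, x2, x3, x4, x5], fun v => by fin_cases v <;> assumption, fun u v => ?_⟩
  simp only [wheel, SimpleGraph.fromRel_adj]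
  fin_cases u <;> fin_cases v <;> simp <;> grind

theorem rim (L1 L2 L3 L4 L5 : Finset ℕ) (c1 : L1.card = 3) (c2 : L2.card = 2) (c3 : L3.card = 2)
    (c4 : L4.card = 2) (c5 : L5.card = 2) (H : Finset ℕ) (c0 : H.card = 5)
    (key : ∀ x1 ∈ L1, ∀ x2 ∈ L2, ∀ x3 ∈ L3, ∀ x4 ∈ L4, ∀ x5 ∈ L5,
      x1 ≠ x2 → x2 ≠ x3 → x3 ≠ x4 → x4 ≠ x5 → x5 ≠ x1 → H = ({x1, x2, x3, x4, x5} : Finset ℕ)) :
    False := by
  obtain ⟨x2, h2, -⟩ := avoid L2 ∅ (by simp [c2])
  obtain ⟨x3, h3, a2⟩ := avoid L3 {x2} (by simp [c3])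
  obtain ⟨x4, h4, a3⟩ := avoid L4 {x3} (by simp [c4])
  obtain ⟨x5, h5, a4⟩ := avoid L5 {x4} (by simp [c5])
  obtain ⟨x1, h1, a1⟩ := avoid L1 {x2, x5} (by have := card_le_two (a := x2) (b := x5); omega)
  obtain ⟨y2, k2, b2⟩ := avoid L2 {x2} (by simp [c2])
  obtain ⟨y3, k3, b3⟩ := avoid L3 {x3} (by simp [c3])
  obtain ⟨y4, k4, b4⟩ := avoid L4 {x4} (by simp [c4])
  obtain ⟨y5, k5, b5⟩ := avoid L5 {x5} (by simp [c5])
  obtain ⟨y1, k1, b1⟩ := avoid L1 {x1} (by simp [c1])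
  obtain ⟨z1, k1', b1'⟩ := avoid L1 {x1, y1} (by have := card_le_two (a := x1) (b := y1); omega)
  simp only [mem_insert, mem_singleton, not_or] at a1 a2 a3 a4 b1 b2 b3 b4 b5 b1'
  have dist : ∀ x1 ∈ L1, ∀ x2 ∈ L2, ∀ x3 ∈ L3, ∀ x4 ∈ L4, ∀ x5 ∈ L5,
      x1 ≠ x2 → x2 ≠ x3 → x3 ≠ x4 → x4 ≠ x5 → x5 ≠ x1 →
      x1 ≠ x3 ∧ x1 ≠ x4 ∧ x2 ≠ x4 ∧ x2 ≠ x5 ∧ x3 ≠ x5 := by
    intro x1 h1 x2 h2 x3 h3 x4 h4 x5 h5 a1 a2 a3 a4 a5
    exact five _ _ _ _ _ (key x1 h1 x2 h2 x3 h3 x4 h4 x5 h5 a1 a2 a3 a4 a5 ▸ c0)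
  have e0 := key x1 h1 x2 h2 x3 h3 x4 h4 x5 h5 a1.1 (Ne.symm a2) (Ne.symm a3) (Ne.symm a4)
    (Ne.symm a1.2)
  obtain ⟨d1, d2, d3, d4, d5⟩ := dist x1 h1 x2 h2 x3 h3 x4 h4 x5 h5 a1.1 (Ne.symm a2) (Ne.symm a3)
    (Ne.symm a4) (Ne.symm a1.2)
  have miss : ∀ w1 ∈ L1, ∀ w2 ∈ L2, ∀ w3 ∈ L3, ∀ w4 ∈ L4, ∀ w5 ∈ L5,
      ∀ x, (x = x1 ∨ x = x2 ∨ x = x3 ∨ x = x4 ∨ x = x5) →
      w1 ≠ w2 → w2 ≠ w3 → w3 ≠ w4 → w4 ≠ w5 → w5 ≠ w1 →
        (x = w1 ∨ x = w2 ∨ x = w3 ∨ x = w4 ∨ x = w5) := by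
    intro w1 h1 w2 h2 w3 h3 w4 h4 w5 h5 x hx a1 a2 a3 a4 a5
    have e := key w1 h1 w2 h2 w3 h3 w4 h4 w5 h5 a1 a2 a3 a4 a5
    have : x ∈ H := by rw [e0]; simpa using hx
    rw [e] at this
    simpa using this
  have r1 := miss y1 k1 x2 h2 x3 h3 x4 h4 x5 h5 x1 (by simp)
  have r2 := miss z1 k1' x2 h2 x3 h3 x4 h4 x5 h5 x1 (by simp)
  have q2 := miss x1 h1 y2 k2 x3 h3 x4 h4 x5 h5 x2 (by simp)
  have q3 := miss x1 h1 x2 h2 y3 k3 x4 h4 x5 h5 x3 (by simp)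
  have q4 := miss x1 h1 x2 h2 x3 h3 y4 k4 x5 h5 x4 (by simp)
  have q5 := miss x1 h1 x2 h2 x3 h3 x4 h4 y5 k5 x5 (by simp)
  clear miss key e0
  have m2 : x2 ∈ L1 := by clear dist; grind
  have m5 : x5 ∈ L1 := by clear dist; grind
  have t1 := dist x2 m2 y2 k2 x3 h3 x4 h4 y5 k5
  have t2 := dist x2 m2 y2 k2 y3 k3 x4 h4 x5 h5
  have t3 := dist x5 m5 x2 h2 x3 h3 y4 k4 y5 k5
  have t4 := dist x1 h1 y2 k2 y3 k3 y4 k4 x5 h5
  have t5 := dist x1 h1 x2 h2 y3 k3 y4 k4 y5 k5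
  clear dist
  have s2 : y2 = x1 ∨ y2 = x3 := by clear t1 t2 t3 t4 t5; grind
  have s3 : y3 = x2 ∨ y3 = x4 := by clear t1 t2 t3 t4 t5; grind
  have s4 : y4 = x3 ∨ y4 = x5 := by clear t1 t2 t3 t4 t5; grind
  have s5 : y5 = x4 ∨ y5 = x1 := by clear t1 t2 t3 t4 t5; grind
  clear q2 q3 q4 q5 r1 r2
  rcases s2 with s2 | s2 <;> rcases s3 with s3 | s3 <;> rcases s4 with s4 | s4 <;>
    rcases s5 with s5 | s5 <;> grind

theorem wheel_good : Ch1 wheel fw := by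
  intro L hL
  by_contra hcon
  refine rim (L 1) (L 2) (L 3) (L 4) (L 5) (hL 1) (hL 2) (hL 3) (hL 4) (hL 5) (L 0) (hL 0) ?_
  intro x1 h1 x2 h2 x3 h3 x4 h4 x5 h5 a1 a2 a3 a4 a5
  refine eq_of_subset_of_card_le (fun x hx => ?_) (by rw [hL 0]; exact card_le_five)
  by_contra hn
  exact hcon (wheel_fin L x x1 x2 x3 x4 x5 hx h1 h2 h3 h4 h5 a1 a2 a3 a4 a5 hn)

theorem main : ∃ (V : Type) (_ : Fintype V) (G : SimpleGraph V),
    Ch1 G (fun _ => 5) ∧ ¬ Ch G (fun _ => 36) 7 := by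
  obtain ⟨V1, i1, G1, f1, a1, b1, c1⟩ := step (Fin 6) wheel fw 5 2 7 (by norm_num) wheel_good
    wheel_bad (by intro v; fin_cases v <;> simp [fw])
  obtain ⟨V2, i2, G2, f2, a2, b2, c2⟩ := step V1 G1 f1 5 1 7 (by norm_num) a1 b1 c1
  obtain ⟨V3, i3, G3, f3, a3, b3, c3⟩ := step V2 G2 f2 5 0 7 (by norm_num) a2 b2 c2
  have e : f3 = fun _ => 5 := funext fun v => by have := c3 v; omega
  subst e
  exact ⟨V3, i3, G3, a3, b3⟩

end Pool.Agent.H.AA5
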